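import Pool.Agent.Q35.TB.Stm
import Pool.Agent.Q68.TT.Mzf

/-!
# Project TB: the local closure at one rational point which is not torsion in all directions
-/

set_option autoImplicit false

namespace Pool.Agent.Q26.TB

open MvPolynomial Pool.Agent.Q35.TT Pool.Agent.Q35.TB Pool.Agent.Q68.TT.Mzf

/-- **MZQ** -/
theorem mzq (h1 : S_INV) (h2 : S_MZM) (h3 : S_CHF) : S_MZQ := by
  intro K _ _ n F hF hS hFin e he L _ _ σ hσ W X hW hs hT hJ g hg
  have hcl : CharZero L := charZero_of_injective_ringHom σ.injective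
  obtain ⟨ε, a, z, ha, hX, i0, hi0⟩ := hT
  have sK : ∀ (X : Fin n × Fin 2 → K) (a : Fin n → K), eval (fun p => a p.1 * X p) F =
      (∏ j, a j) ^ 4 * eval X F := (h3 K n F hF (fun _ => 0)).2.2.2.2.2.1
  have sKe : ∀ (X : Fin n × Fin 2 → K) (a : Fin n → K), eval (fun p => a p.1 * X p) (C e * F) =
      (∏ j, a j) ^ 4 * eval X (C e * F) := by
    intro X a
    rw [map_mul, map_mul, eval_C, eval_C, sK]
    ring
  have cK : ∀ (ε : Fin n → Fin 2) (z : Fin n → K), eval z (ch F ε) = eval (pt ε z) F :=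
    fun ε => (h3 K n F hF ε).2.2.1
  have cKe : ∀ (ε : Fin n → Fin 2) (z : Fin n → K),
      eval z (C e * ch F ε) = eval (pt ε z) (C e * F) := by
    intro ε z
    rw [map_mul, map_mul, eval_C, eval_C, cK]
  have MZ := h2 K n (C e * ch F ε)
    (h1 K n (ch F ε) (h3 K n F hF ε).1 e he).1
    ((h1 K n (ch F ε) (h3 K n F hF ε).1 e he).2.1 ((h3 K n F hF ε).2.1 hS))
    ((h1 K n (ch F ε) (h3 K n F hF ε).1 e he).2.2.1 ((h3 K n F hF ε).2.2.2.2.1 hFin)) L σ hσ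
  have hε : ∀ j, X (j, ε j) ≠ 0 := by
    intro j
    rw [hX]
    change a j * pt ε z (j, ε j) ≠ 0
    rw [pt_self, mul_one]
    exact ha j
  have hz : zc ε X = z := by
    rw [hX, zc_scale ε a ha, zc_pt]
  have hP : (∏ j, X (j, ε j)) ≠ 0 := Finset.prod_ne_zero_iff.2 fun j _ => hε j
  have hXe : (fun p : Fin n × Fin 2 => X (p.1, ε p.1) * pt ε (zc ε X) p) = X :=
    funext fun p => pt_zc ε X hε p
  have hσX : ∀ j, (fun p => σ (X p)) (j, ε j) ≠ 0 := fun j => (_root_.map_ne_zero σ).2 (hε j)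
  obtain ⟨c1, c2, -, c4, -, -, c7⟩ := h3 K n F hF ε
  obtain ⟨-, -, -, i4⟩ := h1 K n (ch F ε) c1 e he
  refine dvd_of ε (cKe ε) sKe g fun k => ?_
  refine MZ.1 (W / (∏ j, X (j, ε j)) ^ 2) (zc ε X) (div_ne_zero hW (pow_ne_zero 2 hP)) ?_ ?_ ?_ _ ?_
  · have h5 := sKe (pt ε (zc ε X)) (fun j => X (j, ε j))
    rw [hXe, ← cKe] at h5
    rw [div_pow, hs, h5, ← pow_mul]
    exact mul_div_cancel_left₀ _ (pow_ne_zero _ hP)
  · rw [hz]
    exact ⟨i0, fun h => hi0 (((i4 z).1 i0).1 h)⟩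
  · intro J hJ1 hJ2 hsp
    apply hJ J hJ1 hJ2
    have h5 := (c4 (zc ε X) J).1 (((i4 (zc ε X)).2 J).1 hsp)
    have h6 := (c7 (pt ε (zc ε X)) (fun j => X (j, ε j)) J hε).2 h5
    rwa [hXe] at h6
  · have h5 := (locF_iff σ (cKe ε) sKe (σ W) (fun p => σ (X p)) hσX g).1 hg k
    have e1 : σ W / (∏ j, (fun p => σ (X p)) (j, ε j)) ^ 2 = σ (W / (∏ j, X (j, ε j)) ^ 2) := by
      rw [map_div₀, map_pow, map_prod]
    rw [e1, zc_map] at h5
    exact h5

end Pool.Agent.Q26.TB
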