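import Pool.Agent.Q35.TB.Stm
import Pool.Agent.Q26.TT.TAN

/-!
# Project TB: the points of bounded degree which are torsion in all directions have bounded height
-/

set_option autoImplicit false

namespace Pool.Agent.Q26.TB

open MvPolynomial Height AdmissibleAbsValues Pool.Agent.Q35.TT Pool.Agent.Q35.TB
open Pool.Agent.Q26.TT (eval_ne loc_aux one_le_prod le_prod)

theorem tw_le (K : Type) [Field K] [NumberField K] (L : Type) [Field L] [NumberField L]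
    [Algebra K L] (D : ℕ) (h : Module.finrank K L ≤ D) :
    totalWeight L ≤ D * Module.finrank ℚ K := by
  rw [NumberField.totalWeight_eq_finrank]
  have h2 : Module.finrank ℚ K * Module.finrank K L = Module.finrank ℚ L :=
    Module.finrank_mul_finrank ℚ K L
  rw [← h2, mul_comm]
  exact Nat.mul_le_mul_right _ h

theorem degreeOf_ex {K : Type} (L : Type) [Field K] [Field L] [Algebra K L] {n : ℕ}
    (f : MvPolynomial (Fin n) K) (j : Fin n) : (ex L f).degreeOf j ≤ f.degreeOf j := by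
  classical
  rw [degreeOf_def, degreeOf_def]
  exact Multiset.count_le_of_le _ degrees_map_le

theorem nat_le_one {L : Type} [Field L] [NumberField L] (v : AbsoluteValue L ℝ)
    (hv : v ∈ nonarchAbsVal (K := L)) (m : ℕ) : v (m : L) ≤ 1 :=
  IsNonarchimedean.apply_natCast_le_one (isNonarchimedean v hv)

theorem nat_prod {L : Type} [Field L] [NumberField L] (v : AbsoluteValue L ℝ)
    (hv : v ∈ nonarchAbsVal (K := L)) {n : ℕ} (N : Fin n → ℕ) (i : Fin n) (m₀ : ℕ) :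
    v (((∏ j, N j) * m₀ : ℕ) : L) ≤ v ((N i * m₀ : ℕ) : L) := by
  have h1 : (∏ j, N j) * m₀ = (∏ j ∈ Finset.univ.erase i, N j) * (N i * m₀) := by
    rw [← Finset.prod_erase_mul Finset.univ _ (Finset.mem_univ i)]
    ring
  rw [h1, Nat.cast_mul, map_mul]
  exact mul_le_of_le_one_left (v.nonneg _) (nat_le_one v hv _)

/-- one local inequality at a nonarchimedean place -/
theorem loc_non {K : Type} [Field K] {n : ℕ} (v : AbsoluteValue K ℝ) (z : Fin n → K) (i : Fin n)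
    (b y m : K) (hy : y = 1 ∨ y = z i) {u t : ℝ} (ht : v m ≤ t)
    (h : v b ^ 2 * t ≤ u * max 1 (v (z i)) ^ 2 *
      ∏ j ∈ Finset.univ.erase i, max 1 (v (z j)) ^ 4) :
    v (b ^ 2 * y ^ 2) * v m ≤ u * ∏ j, max 1 (v (z j)) ^ 4 := by
  have hy1 : v y ≤ max 1 (v (z i)) := by
    rcases hy with rfl | rfl
    · rw [map_one]
      exact le_max_left _ _
    · exact le_max_right _ _
  have hy2 : v y ^ 2 ≤ max 1 (v (z i)) ^ 2 := pow_le_pow_left₀ (v.nonneg y) hy1 2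
  have ht0 : 0 ≤ t := (v.nonneg m).trans ht
  rw [map_mul, map_pow, map_pow, ← Finset.mul_prod_erase Finset.univ _ (Finset.mem_univ i)]
  calc v b ^ 2 * v y ^ 2 * v m
      = (v b ^ 2 * v m) * v y ^ 2 := by ring
    _ ≤ (v b ^ 2 * t) * v y ^ 2 :=
        mul_le_mul_of_nonneg_right (mul_le_mul_of_nonneg_left ht (by positivity)) (by positivity)
    _ ≤ (u * max 1 (v (z i)) ^ 2 * ∏ j ∈ Finset.univ.erase i, max 1 (v (z j)) ^ 4) *
          max 1 (v (z i)) ^ 2 :=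
        mul_le_mul h hy2 (by positivity) (le_trans (mul_nonneg (sq_nonneg _) ht0) h)
    _ = _ := by ring

/-- **TAD** -/
theorem tad (h1 : S_GLD) (h2 : S_ORX) (h3 : S_PRD) (h4 : S_NSD) : S_TAD := by
  intro K _ _ n f hf hs D
  rcases Nat.eq_zero_or_pos n with rfl | hn
  · exact ⟨0, fun L _ _ _ _ z _ j => j.elim0⟩
  have hne : Nonempty (Fin n) := ⟨⟨0, hn⟩⟩
  obtain ⟨B₀, m₀, hB₀, hm₀, hG⟩ := h1 K n f hf
  obtain ⟨W₀, hW₀⟩ : ∃ W₀ : ℕ, W₀ = D * Module.finrank ℚ K := ⟨_, rfl⟩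
  choose A hA0 hA using fun i => h2 K n f hf i ((4 + n) * W₀) D
  obtain ⟨E, hE1, hE⟩ := h4 K n f hf hs
  obtain ⟨B, hB⟩ : ∃ B : ℝ, ∀ i, A i ≤ B :=
    ⟨∑ i, A i, fun i => Finset.single_le_sum (fun j _ => (hA0 j).le) (Finset.mem_univ i)⟩
  have hB0 : 0 ≤ B := (hA0 ⟨0, hn⟩).le.trans (hB _)
  obtain ⟨C, hC⟩ : ∃ C : ℝ, C = E ^ W₀ * (B₀ * m₀) ^ W₀ * B := ⟨_, rfl⟩
  refine ⟨C, ?_⟩
  intro L _ _ _ hLD z hz
  have hW : totalWeight L ≤ W₀ := by rw [hW₀]; exact tw_le K L D hLD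
  choose N0 hN0 hT0 using hz
  choose N hN hT hNb using fun i => hA i L hLD z (N0 i) (hN0 i) (hT0 i)
  obtain ⟨i0, hi0⟩ := Finite.exists_max N
  obtain ⟨m, hm⟩ : ∃ m : ℝ, m = N i0 := ⟨_, rfl⟩
  have hm1 : 1 ≤ m := by
    rw [hm]
    exact_mod_cast Nat.one_le_iff_ne_zero.2 (hN i0)
  have hNm1 : ∀ i, ((N i : ℕ) : ℝ) ≤ m := fun i => by
    rw [hm]
    exact_mod_cast hi0 i
  have hNm : ∀ i, ((N i : ℕ) : ℝ) ^ 4 ≤ m ^ 4 := fun i =>
    pow_le_pow_left₀ (Nat.cast_nonneg _) (hNm1 i) 4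
  have hPi : ((∏ i, N i : ℕ) : ℝ) ≤ m ^ n := by
    rw [Nat.cast_prod]
    calc ∏ i, ((N i : ℕ) : ℝ) ≤ ∏ _i : Fin n, m :=
          Finset.prod_le_prod (fun _ _ => Nat.cast_nonneg _) (fun i _ => hNm1 i)
      _ = m ^ n := by simp
  have hPi0 : (∏ i, N i) ≠ 0 := Finset.prod_ne_zero_iff.2 fun i _ => hN i
  have hfL : ∀ j, (ex L f).degreeOf j ≤ 4 := fun j => (degreeOf_ex L f j).trans (hf j)
  have hu0 : eval z (ex L f) ≠ 0 := eval_ne hfL (hT i0)
  have hx : ∀ (i : Fin n) (k : Fin 2), af z i k = 1 ∨ af z i k = z i := by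
    intro i k
    fin_cases k
    · left; rfl
    · right; rfl
  have hB₀0 : 0 ≤ B₀ := zero_le_one.trans hB₀
  have hkey := h3 L (Fin n × Fin 2 × Fin 2) n (ZN (ex L f) z) (eval z (ex L f)) z (fun _ => 4)
    (B₀ * m ^ 4) ((∏ i, N i) * m₀) (hE L z).1 hu0
    (one_le_mul_of_one_le_of_one_le hB₀ (one_le_pow₀ hm1)) (mul_ne_zero hPi0 hm₀) (by
      rintro v hv ⟨i, a, b⟩
      have h5 := (hG L z i (N i) (hN i) (hT i) a).1 v hv
      exact loc_aux v z i _ _ (hx i b) (mul_le_mul_of_nonneg_left (hNm i) hB₀0)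
        (v.nonneg _) h5) (by
      rintro v hv ⟨i, a, b⟩
      have h5 := (hG L z i (N i) (hN i) (hT i) a).2 v hv
      exact loc_non v z i _ _ _ (hx i b) (nat_prod v hv N i m₀) h5)
  obtain ⟨H, hH⟩ : ∃ H : ℝ, H = ∏ j, mulHeight₁ (z j) := ⟨_, rfl⟩
  have hH1 : 1 ≤ H := by
    rw [hH]
    exact one_le_prod _ _ fun j => one_le_mulHeight₁ (z j)
  have hm0 : (1 : ℝ) ≤ m₀ := by exact_mod_cast Nat.one_le_iff_ne_zero.2 hm₀
  -- the constant
  have hconst : (B₀ * m ^ 4 * (((∏ i, N i) * m₀ : ℕ) : ℝ)) ^ totalWeight L ≤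
      (B₀ * m₀) ^ W₀ * (B * H) := by
    have h5 : B₀ * m ^ 4 * (((∏ i, N i) * m₀ : ℕ) : ℝ) ≤ (B₀ * m₀) * m ^ (4 + n) := by
      rw [Nat.cast_mul, pow_add]
      calc B₀ * m ^ 4 * (((∏ i, N i : ℕ) : ℝ) * m₀) ≤ B₀ * m ^ 4 * (m ^ n * m₀) :=
            mul_le_mul_of_nonneg_left (mul_le_mul_of_nonneg_right hPi (by positivity))
              (by positivity)
        _ = _ := by ring
    have h6 : 1 ≤ (B₀ * m₀) * m ^ (4 + n) :=
      one_le_mul_of_one_le_of_one_le (one_le_mul_of_one_le_of_one_le hB₀ hm0) (one_le_pow₀ hm1)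
    calc (B₀ * m ^ 4 * (((∏ i, N i) * m₀ : ℕ) : ℝ)) ^ totalWeight L
        ≤ ((B₀ * m₀) * m ^ (4 + n)) ^ totalWeight L :=
          pow_le_pow_left₀ (by positivity) h5 _
      _ ≤ ((B₀ * m₀) * m ^ (4 + n)) ^ W₀ := pow_le_pow_right₀ h6 hW
      _ = (B₀ * m₀) ^ W₀ * m ^ ((4 + n) * W₀) := by rw [mul_pow, pow_mul]
      _ ≤ (B₀ * m₀) ^ W₀ * (B * H) := by
          refine mul_le_mul_of_nonneg_left ?_ (by positivity)
          rw [hm]
          refine (hNb i0).trans ?_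
          rw [← hH]
          exact mul_le_mul_of_nonneg_right (hB i0) (zero_le_one.trans hH1)
  have h8 : H ^ 8 ≤ C * H ^ 5 := by
    have h9 := (hE L z).2
    rw [← hH] at h9
    rw [Finset.prod_pow, ← hH] at hkey
    calc H ^ 8 ≤ E ^ totalWeight L * mulHeight (ZN (ex L f) z) := h9
      _ ≤ E ^ W₀ * mulHeight (ZN (ex L f) z) :=
          mul_le_mul_of_nonneg_right (pow_le_pow_right₀ hE1 hW)
            (zero_le_one.trans (one_le_mulHeight _))
      _ ≤ E ^ W₀ * ((B₀ * m ^ 4 * (((∏ i, N i) * m₀ : ℕ) : ℝ)) ^ totalWeight L * H ^ 4) :=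
          mul_le_mul_of_nonneg_left hkey (by positivity)
      _ ≤ E ^ W₀ * (((B₀ * m₀) ^ W₀ * (B * H)) * H ^ 4) :=
          mul_le_mul_of_nonneg_left (mul_le_mul_of_nonneg_right hconst (by positivity))
            (by positivity)
      _ = C * H ^ 5 := by rw [hC]; ring
  have h9 : H ≤ C := by
    have h11 : H * H ^ 5 ≤ C * H ^ 5 := by
      refine le_trans ?_ h8
      calc H * H ^ 5 = H ^ 6 := by ring
        _ ≤ H ^ 8 := pow_le_pow_right₀ hH1 (by norm_num)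
    exact le_of_mul_le_mul_right h11 (by positivity)
  intro j
  refine le_trans ?_ h9
  rw [hH]
  exact le_prod (fun j => mulHeight₁ (z j)) (fun j => one_le_mulHeight₁ (z j)) j

end Pool.Agent.Q26.TB
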